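import Mathlib

open Filter Topology

set_option autoImplicit false

namespace Pool.Agent.Results.MP_11f428_an.BddCompleteDualShrinks

/-- `x` is an M-basis of the normed space `E` with associated functionals `f`: the closed linear
span of `x` is `E`, `f i (x j) = δ i j`, and `f` is total. -/
structure IsMBasis {𝕜 : Type*} [RCLike 𝕜] {E : Type*} [NormedAddCommGroup E] [NormedSpace 𝕜 E]
    (x : ℕ → E) (f : ℕ → StrongDual 𝕜 E) : Prop where
  closedSpan_eq : (Submodule.span 𝕜 (Set.range x)).topologicalClosure = ⊤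
  biorth : ∀ i j, f i (x j) = if i = j then 1 else 0
  total : ∀ y, (∀ n, f n y = 0) → y = 0

/-- The closed linear span `[f n]` of the functionals `f n` in the dual space `E*`. -/
def closedSpan {𝕜 : Type*} [RCLike 𝕜] {E : Type*} [NormedAddCommGroup E] [NormedSpace 𝕜 E]
    (f : ℕ → StrongDual 𝕜 E) : Submodule 𝕜 (StrongDual 𝕜 E) :=
  (Submodule.span 𝕜 (Set.range f)).topologicalClosure

/-- An M-basis with associated functionals `f` is shrinking if the closed span of `f` is the
whole dual. -/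
def IsShrinking {𝕜 : Type*} [RCLike 𝕜] {E : Type*} [NormedAddCommGroup E] [NormedSpace 𝕜 E]
    (f : ℕ → StrongDual 𝕜 E) : Prop :=
  closedSpan f = ⊤

/-- `f` is a boundedly complete M-basis of its closed span `F = [f n]`, the associated functionals
being the evaluations `u (x n) : g ↦ g (x n)`: whenever `g` is a bounded sequence in `F` and all
limits `α n = lim_j g j (x n)` exist, some `h` in `F` has `h (x n) = α n` for all `n`. -/
def DualBoundedlyComplete {𝕜 : Type*} [RCLike 𝕜] {E : Type*} [NormedAddCommGroup E]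
    [NormedSpace 𝕜 E] (x : ℕ → E) (f : ℕ → StrongDual 𝕜 E) : Prop :=
  ∀ g : ℕ → StrongDual 𝕜 E, (∀ j, g j ∈ closedSpan f) → (∃ C : ℝ, ∀ j, ‖g j‖ ≤ C) →
    ∀ α : ℕ → 𝕜, (∀ n, Tendsto (fun j => g j (x n)) atTop (𝓝 (α n))) →
      ∃ h ∈ closedSpan f, ∀ n, h (x n) = α n

section Abstract

variable {𝕜 : Type*} [RCLike 𝕜] {E : Type*} [NormedAddCommGroup E] [NormedSpace 𝕜 E]
  {G : Type*} [NormedAddCommGroup G] [NormedSpace 𝕜 G] (J : G →ₗᵢ[𝕜] StrongDual 𝕜 E)

/-- The canonical map `u : E → G*`, `u y g = (J g) y`, for a space `G` embedded in `E*`. -/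
noncomputable def canon : E →L[𝕜] StrongDual 𝕜 G :=
  ContinuousLinearMap.flip J.toContinuousLinearMap

lemma canon_apply (y : E) (g : G) : canon J y g = (J g) y := rfl

/-- A functional with real part at most `r` on the ball of radius `R` has norm at most `r / R`. -/
lemma norm_le_of_re_le {V : Type*} [NormedAddCommGroup V] [NormedSpace 𝕜 V] (φ : StrongDual 𝕜 V)
    {R r : ℝ} (hR : 0 < R) (hφ : ∀ v : V, ‖v‖ ≤ R → RCLike.re (φ v) ≤ r) : R * ‖φ‖ ≤ r := by
  have hr : 0 ≤ r := by simpa using hφ 0 (by simpa using hR.le)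
  have hb : ‖φ‖ ≤ r / R := by
    refine ContinuousLinearMap.opNorm_le_bound _ (by positivity) fun v => ?_
    by_cases hv : v = 0
    · simp [hv]
    have hv' : 0 < ‖v‖ := norm_pos_iff.2 hv
    by_cases h0 : φ v = 0
    · rw [h0, norm_zero]; positivity
    have h0' : 0 < ‖φ v‖ := norm_pos_iff.2 h0
    -- rotate and scale
    let c : 𝕜 := ((‖φ v‖ : ℝ) : 𝕜) / φ v
    have hc : ‖c‖ = 1 := by
      simp only [c, norm_div, RCLike.norm_ofReal, abs_norm]
      exact div_self h0'.ne'
    have hcv : φ (c • v) = ((‖φ v‖ : ℝ) : 𝕜) := by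
      rw [map_smul, smul_eq_mul]
      simp only [c]
      rw [div_mul_cancel₀ _ h0]
    have h1 := hφ (((R / ‖v‖ : ℝ) : 𝕜) • (c • v)) (by
      rw [norm_smul, norm_smul, hc, RCLike.norm_ofReal, abs_of_pos (by positivity), one_mul,
        div_mul_cancel₀ _ hv'.ne'])
    rw [map_smul, hcv, smul_eq_mul, ← RCLike.ofReal_mul, RCLike.ofReal_re] at h1
    rw [div_mul_eq_mul_div, le_div_iff₀ hR]
    rw [div_mul_eq_mul_div, div_le_iff₀ hv'] at h1
    linarith
  rw [le_div_iff₀ hR] at hb
  linarith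

/-- Helly type lemma: a functional dominated by `u` is approximated on finitely many points by
a bounded set of elements of `G`. -/
lemma helly (g : StrongDual 𝕜 E) (C : ℝ) (hC : 0 ≤ C)
    (hg : ∀ y, ‖g y‖ ≤ C * ‖canon J y‖) (m : ℕ) (x : Fin m → E) (ε : ℝ) (hε : 0 < ε) :
    ∃ h : G, ‖h‖ ≤ C + 1 ∧ ∀ i, ‖(J h) (x i) - g (x i)‖ < ε := by
  classical
  let T : G →L[𝕜] (Fin m → 𝕜) := ContinuousLinearMap.pi fun i => canon J (x i)
  set s : Set (Fin m → 𝕜) := closure (T '' {h : G | ‖h‖ ≤ C + 1}) with hs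
  by_cases hmem : (fun i => g (x i)) ∈ s
  · obtain ⟨w, hw, hdist⟩ := Metric.mem_closure_iff.1 hmem ε hε
    obtain ⟨h, hh, rfl⟩ := hw
    refine ⟨h, hh, fun i => ?_⟩
    have h1 : ‖((fun i => g (x i)) - T h) i‖ ≤ ‖(fun i => g (x i)) - T h‖ :=
      norm_le_pi_norm _ i
    rw [dist_eq_norm] at hdist
    have h2 := lt_of_le_of_lt h1 hdist
    rw [Pi.sub_apply, norm_sub_rev] at h2
    exact h2
  · exfalso
    have hconv : Convex ℝ s := by
      refine Convex.closure ?_
      rintro _ ⟨a, ha, rfl⟩ _ ⟨b, hb, rfl⟩ p q hp hq hpq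
      refine ⟨((p : ℝ) : 𝕜) • a + ((q : ℝ) : 𝕜) • b, ?_, ?_⟩
      · have ha' : ‖a‖ ≤ C + 1 := ha
        have hb' : ‖b‖ ≤ C + 1 := hb
        change ‖_‖ ≤ C + 1
        refine (norm_add_le _ _).trans ?_
        rw [norm_smul, norm_smul, RCLike.norm_ofReal, RCLike.norm_ofReal, abs_of_nonneg hp,
          abs_of_nonneg hq]
        calc p * ‖a‖ + q * ‖b‖ ≤ p * (C + 1) + q * (C + 1) := by gcongr
          _ = C + 1 := by rw [← add_mul, hpq, one_mul]
      · rw [map_add, map_smul, map_smul]
        ext i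
        simp [RCLike.real_smul_eq_coe_mul]
    obtain ⟨a, r, ha, hr⟩ := RCLike.geometric_hahn_banach_closed_point (𝕜 := 𝕜) hconv
      isClosed_closure hmem
    -- the vector representing the functional
    set y : E := ∑ i, a (Pi.single i 1) • x i with hy
    have haT : ∀ h : G, a (T h) = (J h) y := by
      intro h
      have : T h = ∑ i, (T h i) • (Pi.single i (1 : 𝕜) : Fin m → 𝕜) := by
        ext j
        simp [Finset.sum_apply, Pi.single_apply]
      rw [this, map_sum, hy, map_sum]
      refine Finset.sum_congr rfl fun i _ => ?_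
      rw [map_smul, map_smul, smul_eq_mul, smul_eq_mul, mul_comm]
      rfl
    have hag : a (fun i => g (x i)) = g y := by
      have : (fun i => g (x i)) = ∑ i, (g (x i)) • (Pi.single i (1 : 𝕜) : Fin m → 𝕜) := by
        ext j
        simp [Finset.sum_apply, Pi.single_apply]
      rw [this, map_sum, hy, map_sum]
      refine Finset.sum_congr rfl fun i _ => ?_
      rw [map_smul, map_smul, smul_eq_mul, smul_eq_mul, mul_comm]
    rw [hag] at hr
    have hnorm : (C + 1) * ‖canon J y‖ ≤ r := by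
      refine norm_le_of_re_le _ (by linarith) fun h hh => ?_
      rw [canon_apply, ← haT]
      exact (ha _ (subset_closure ⟨h, hh, rfl⟩)).le
    have h1 : RCLike.re (g y) ≤ C * ‖canon J y‖ := (RCLike.re_le_norm _).trans (hg y)
    have h2 : C * ‖canon J y‖ ≤ (C + 1) * ‖canon J y‖ := by
      have := norm_nonneg (canon J y)
      nlinarith
    linarith

/-- If bounded sequences of `G` that converge weak* on a dense sequence to an element of `E*` have
their limit in `G`, and `G` is total, then `G` is the whole dual. -/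
theorem surjective_of_seq [CompleteSpace E] (x : ℕ → E)
    (htot : ∀ y, (∀ g, (J g) y = 0) → y = 0)
    (hseq : ∀ y : ℕ → G, (∃ C : ℝ, ∀ j, ‖y j‖ ≤ C) → ∀ φ : StrongDual 𝕜 E,
      (∀ n, Tendsto (fun j => (J (y j)) (x n)) atTop (𝓝 (φ (x n)))) → ∃ g, J g = φ)
    (φ : StrongDual 𝕜 E) : ∃ g, J g = φ := by
  -- functionals dominated by `u` lie in `G`
  have key1 : ∀ g : StrongDual 𝕜 E, ∀ C : ℝ, 0 ≤ C → (∀ y, ‖g y‖ ≤ C * ‖canon J y‖) →
      ∃ h, J h = g := by
    intro g C hC hg
    choose h hh1 hh2 using fun m : ℕ =>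
      helly J g C hC hg m (fun i => x i) (1 / ((m : ℝ) + 1)) (by positivity)
    refine hseq h ⟨C + 1, hh1⟩ g fun n => ?_
    rw [tendsto_iff_norm_sub_tendsto_zero]
    refine squeeze_zero' (Eventually.of_forall fun _ => norm_nonneg _) ?_
      tendsto_one_div_add_atTop_nhds_zero_nat
    filter_upwards [eventually_gt_atTop n] with m hm
    exact (hh2 m ⟨n, hm⟩).le
  have huinj : ∀ y, canon J y = 0 → y = 0 := by
    intro y hy
    refine htot y fun g => ?_
    rw [← canon_apply, hy]
    rfl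
  -- approximate preimages
  have key2 : ∀ y₀ : E, ‖canon J y₀‖ < 1 → canon J y₀ ∈ closure (canon J '' {y | ‖y‖ ≤ 1}) := by
    intro y₀ hy₀
    by_contra hcon
    have hconv : Convex ℝ (closure (canon J '' {y : E | ‖y‖ ≤ 1})) := by
      refine Convex.closure ?_
      rintro _ ⟨a, ha, rfl⟩ _ ⟨b, hb, rfl⟩ p q hp hq hpq
      refine ⟨((p : ℝ) : 𝕜) • a + ((q : ℝ) : 𝕜) • b, ?_, ?_⟩
      · have ha' : ‖a‖ ≤ 1 := ha
        have hb' : ‖b‖ ≤ 1 := hb
        change ‖_‖ ≤ 1
        refine (norm_add_le _ _).trans ?_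
        rw [norm_smul, norm_smul, RCLike.norm_ofReal, RCLike.norm_ofReal, abs_of_nonneg hp,
          abs_of_nonneg hq]
        calc p * ‖a‖ + q * ‖b‖ ≤ p * 1 + q * 1 := by gcongr
          _ = 1 := by rw [mul_one, mul_one, hpq]
      · rw [map_add, map_smul, map_smul]
        ext g
        simp [RCLike.real_smul_eq_coe_mul]
    obtain ⟨Φ, r, hΦ, hr⟩ := RCLike.geometric_hahn_banach_closed_point (𝕜 := 𝕜) hconv
      isClosed_closure hcon
    -- the functional `Φ ∘ u` lies in `G`
    obtain ⟨g, hg⟩ := key1 (Φ.comp (canon J)) ‖Φ‖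
      (ContinuousLinearMap.opNorm_nonneg Φ) fun y => Φ.le_opNorm _
    have hgr : ‖g‖ ≤ r := by
      have h1 : (1 : ℝ) * ‖Φ.comp (canon J)‖ ≤ r := by
        refine norm_le_of_re_le _ one_pos fun y hy => ?_
        exact (hΦ _ (subset_closure ⟨y, hy, rfl⟩)).le
      rw [← hg, one_mul, J.norm_map] at h1
      exact h1
    have h2 : RCLike.re (Φ (canon J y₀)) ≤ ‖canon J y₀‖ * ‖g‖ := by
      have h3 : Φ (canon J y₀) = (J g) y₀ := by rw [hg]; rfl
      rw [h3, ← canon_apply]
      exact (RCLike.re_le_norm _).trans ((canon J y₀).le_opNorm g)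
    have hr0 : 0 ≤ r := (norm_nonneg g).trans hgr
    have h4 : ‖canon J y₀‖ * ‖g‖ ≤ 1 * r :=
      mul_le_mul hy₀.le hgr (norm_nonneg _) zero_le_one
    linarith
  have key3 : ∀ y : E, ∃ z : E, ‖z‖ ≤ 2 * ‖canon J y‖ ∧
      ‖canon J (y - z)‖ ≤ ‖canon J y‖ / 2 := by
    intro y
    by_cases hy : canon J y = 0
    · exact ⟨0, by simp, by simp [hy]⟩
    have hpos : 0 < ‖canon J y‖ := norm_pos_iff.2 hy
    set t : ℝ := 2 * ‖canon J y‖ with ht
    have htpos : 0 < t := by positivity
    have h1 : ‖canon J (((t⁻¹ : ℝ) : 𝕜) • y)‖ < 1 := by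
      rw [map_smul, norm_smul, RCLike.norm_ofReal, abs_of_pos (by positivity),
        inv_mul_lt_iff₀ htpos]
      linarith
    obtain ⟨w, hw, hdist⟩ := Metric.mem_closure_iff.1 (key2 _ h1) (1 / 4) (by norm_num)
    obtain ⟨z, hz, rfl⟩ := hw
    have hz' : ‖z‖ ≤ 1 := hz
    refine ⟨((t : ℝ) : 𝕜) • z, ?_, ?_⟩
    · rw [norm_smul, RCLike.norm_ofReal, abs_of_pos htpos]
      nlinarith
    · rw [dist_eq_norm, ← map_sub] at hdist
      have h2 : y - ((t : ℝ) : 𝕜) • z = ((t : ℝ) : 𝕜) • ((((t⁻¹ : ℝ) : 𝕜) • y) - z) := by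
        rw [smul_sub, smul_smul, ← RCLike.ofReal_mul, mul_inv_cancel₀ htpos.ne']
        simp
      rw [h2, map_smul, norm_smul, RCLike.norm_ofReal, abs_of_pos htpos]
      nlinarith
  choose z hz1 hz2 using key3
  -- `u` is bounded below
  have key4 : ∀ y : E, ‖y‖ ≤ 4 * ‖canon J y‖ := by
    intro y
    let r : ℕ → E := fun n => Nat.rec y (fun _ v => v - z v) n
    have hr0 : r 0 = y := rfl
    have hrs : ∀ n, r (n + 1) = r n - z (r n) := fun n => rfl
    have hub : ∀ n, ‖canon J (r n)‖ ≤ ‖canon J y‖ * (1 / 2) ^ n := by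
      intro n
      induction n with
      | zero => simp [hr0]
      | succ n ih =>
        rw [hrs, pow_succ]
        have := hz2 (r n)
        linarith
    have hzb : ∀ n, ‖z (r n)‖ ≤ 2 * ‖canon J y‖ * (1 / 2) ^ n := fun n => by
      have := hz1 (r n)
      have := hub n
      linarith
    have hgeo : HasSum (fun n : ℕ => 2 * ‖canon J y‖ * (1 / 2 : ℝ) ^ n)
        (2 * ‖canon J y‖ * 2) := hasSum_geometric_two.mul_left _
    have hsum : Summable fun n => z (r n) := Summable.of_norm_bounded hgeo.summable hzb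
    have hpart : ∀ n, ∑ i ∈ Finset.range n, z (r i) = y - r n := by
      intro n
      induction n with
      | zero => simp [hr0]
      | succ n ih =>
        rw [Finset.sum_range_succ, ih, hrs]
        abel
    have hS := hsum.hasSum.tendsto_sum_nat
    have h1 : Tendsto (fun n => canon J (∑ i ∈ Finset.range n, z (r i))) atTop
        (𝓝 (canon J (∑' n, z (r n)))) := ((canon J).continuous.tendsto _).comp hS
    have h2 : Tendsto (fun n => canon J (r n)) atTop (𝓝 0) := by
      rw [tendsto_zero_iff_norm_tendsto_zero]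
      refine squeeze_zero (fun _ => norm_nonneg _) hub ?_
      have := (tendsto_pow_atTop_nhds_zero_of_lt_one (r := (1 / 2 : ℝ)) (by norm_num)
        (by norm_num)).const_mul ‖canon J y‖
      simpa using this
    have h3 : Tendsto (fun n => canon J (∑ i ∈ Finset.range n, z (r i))) atTop
        (𝓝 (canon J y)) := by
      have := (tendsto_const_nhds (x := canon J y)).sub h2
      rw [sub_zero] at this
      refine this.congr fun n => ?_
      rw [hpart, map_sub]
    have h4 : canon J (y - ∑' n, z (r n)) = 0 := by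
      rw [map_sub, tendsto_nhds_unique h3 h1, sub_self]
    have h5 : y = ∑' n, z (r n) := by
      have := huinj _ h4
      exact sub_eq_zero.1 this
    calc ‖y‖ = ‖∑' n, z (r n)‖ := by rw [← h5]
      _ ≤ 2 * ‖canon J y‖ * 2 := tsum_of_norm_bounded hgeo hzb
      _ = 4 * ‖canon J y‖ := by ring
  refine key1 φ (‖φ‖ * 4) (by positivity) fun y => ?_
  have h1 := φ.le_opNorm y
  have h2 := mul_le_mul_of_nonneg_left (key4 y) (norm_nonneg φ)
  linarith

end Abstract

section Carrier

variable {𝕜 : Type*} [RCLike 𝕜] {E : Type*} [NormedAddCommGroup E] [NormedSpace 𝕜 E]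

/-- The underlying type of a subspace of the dual, with its normed space structure. -/
def Carrier (F : Submodule 𝕜 (StrongDual 𝕜 E)) : Type _ := F

noncomputable instance (F : Submodule 𝕜 (StrongDual 𝕜 E)) : NormedAddCommGroup (Carrier F) :=
  inferInstanceAs (NormedAddCommGroup F)

noncomputable instance (F : Submodule 𝕜 (StrongDual 𝕜 E)) : NormedSpace 𝕜 (Carrier F) :=
  inferInstanceAs (NormedSpace 𝕜 F)

/-- The inclusion. -/
noncomputable def incl (F : Submodule 𝕜 (StrongDual 𝕜 E)) :
    Carrier F →ₗᵢ[𝕜] StrongDual 𝕜 E where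
  toFun g := (g : F).1
  map_add' _ _ := rfl
  map_smul' _ _ := rfl
  norm_map' _ := rfl

end Carrier

/-- **If the functionals of an M-basis form a boundedly complete M-basis of their closed span,
then the M-basis is shrinking.** -/
theorem result {𝕜 : Type*} [RCLike 𝕜] {E : Type*} [NormedAddCommGroup E] [NormedSpace 𝕜 E]
    [CompleteSpace E] (x : ℕ → E) (f : ℕ → StrongDual 𝕜 E) (h : IsMBasis x f)
    (hb : DualBoundedlyComplete x f) : IsShrinking f := by
  have hsurj : ∀ φ : StrongDual 𝕜 E, ∃ g, incl (closedSpan f) g = φ := by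
    intro φ
    refine surjective_of_seq (incl (closedSpan f)) x ?_ ?_ φ
    · intro y hy
      refine h.total y fun n => ?_
      exact hy ⟨f n, Submodule.le_topologicalClosure _ (Submodule.subset_span ⟨n, rfl⟩)⟩
    · intro g hg ψ hψ
      obtain ⟨w, hw, hw'⟩ := hb (fun j => incl (closedSpan f) (g j)) (fun j => (g j).2)
        (by obtain ⟨C, hC⟩ := hg; exact ⟨C, fun j => by rw [(incl (closedSpan f)).norm_map]; exact hC j⟩)
        (fun n => ψ (x n)) hψ
      refine ⟨⟨w, hw⟩, ?_⟩
      change w = ψ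
      have heq : Set.EqOn w ψ (Submodule.span 𝕜 (Set.range x)) := by
        intro y hy
        induction hy using Submodule.span_induction with
        | mem y hy => obtain ⟨n, rfl⟩ := hy; exact hw' n
        | zero => simp
        | add a b _ _ ha hb => rw [map_add, map_add, ha, hb]
        | smul c a _ ha => rw [map_smul, map_smul, ha]
      have hdense : Dense (Submodule.span 𝕜 (Set.range x) : Set E) := by
        rw [Submodule.dense_iff_topologicalClosure_eq_top]
        exact h.closedSpan_eq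
      ext y
      exact congrFun (Continuous.ext_on hdense w.continuous ψ.continuous heq) y
  rw [IsShrinking, eq_top_iff]
  intro φ _
  obtain ⟨g, hg⟩ := hsurj φ
  rw [← hg]
  exact g.2

end Pool.Agent.Results.MP_11f428_an.BddCompleteDualShrinks
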